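import Pool.Agent.H97.AM.W6

/-!
# W5: group theory of the wreath product (helper97)
-/

open scoped Classical commutatorElement

namespace AMc

section W5

variable {G X : Type} [Group G] [Group X]

theorem wr_conj_left (w g : G ≀ᵣ X) (hg : g.right = 1) (x : X) :
    (w * g * w⁻¹).left x = w.left x * g.left (w.right⁻¹ * x) * (w.left x)⁻¹ := by
  simp [hg, mul_assoc]

theorem wr_conj_right (w g : G ≀ᵣ X) (hg : g.right = 1) :
    (w * g * w⁻¹).right = 1 := by
  simp [hg]

theorem mem_base {L : Subgroup G} {w : G ≀ᵣ X} :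
    w ∈ base X L ↔ w.right = 1 ∧ ∀ x, w.left x ∈ L := Iff.rfl

theorem mem_full {L : Subgroup G} {w : G ≀ᵣ X} :
    w ∈ full X L ↔ ∀ x, w.left x ∈ L := Iff.rfl

theorem exists_other [Fintype X] (h3 : 3 ≤ Nat.card X) (x : X) : ∃ y : X, y ≠ x := by
  have h4 : 1 < Fintype.card X := by rw [Nat.card_eq_fintype_card] at h3; omega
  have : Nontrivial X := Fintype.one_lt_card_iff_nontrivial.1 h4
  exact exists_ne x

theorem exists_elt [Fintype X] (h3 : 3 ≤ Nat.card X) {Q : Type} [CommGroup Q] (q : G →* Q)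
    (D : Subgroup G) (x : X) (d : G) (hd : d ∈ D) :
    ∃ p ∈ (base X D ⊓ (sQ X q).ker : Subgroup (G ≀ᵣ X)), p.left x = d := by
  obtain ⟨y, hy⟩ := exists_other h3 x
  refine ⟨dl x d * dl y d⁻¹, ⟨⟨by simp [dl_right], fun z => ?_⟩, ?_⟩, ?_⟩
  · by_cases h1 : z = x
    · subst h1
      simp [dl_left, dl_right, Pi.mulSingle_apply, hy.symm, hd]
    · by_cases h2 : z = y
      · subst h2
        simp [dl_left, dl_right, Pi.mulSingle_apply, h1, hd]
      · simp [dl_left, dl_right, Pi.mulSingle_apply, h1, h2, D.one_mem]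
  · have h1 : ∀ (z : X) (g : G), sQ X q (dl z g) = q g := by
      intro z g
      show ∏ u, q ((dl z g : G ≀ᵣ X).left u) = q g
      rw [Finset.prod_eq_single z]
      · simp [dl_left]
      · intro b _ hb
        simp [dl_left, Pi.mulSingle_apply, hb]
      · intro h; exact absurd (Finset.mem_univ _) h
    have h2 : (dl x d * dl y d⁻¹ : G ≀ᵣ X) ∈ (sQ X q).ker := by
      rw [MonoidHom.mem_ker, map_mul, h1, h1, map_inv, mul_inv_cancel]
    exact h2
  · simp [dl_left, dl_right, Pi.mulSingle_apply, hy.symm]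

theorem base_inf_base (L L' : Subgroup G) : base X L ⊓ base X L' = base X (L ⊓ L') := by
  ext w
  simp only [Subgroup.mem_inf, mem_base]
  constructor
  · rintro ⟨⟨h1, h2⟩, _, h3⟩
    exact ⟨h1, fun x => ⟨h2 x, h3 x⟩⟩
  · rintro ⟨h1, h2⟩
    exact ⟨⟨h1, fun x => (h2 x).1⟩, h1, fun x => (h2 x).2⟩

theorem card_base [Finite X] (L : Subgroup G) :
    Nat.card (base X L) = Nat.card L ^ Nat.card X := by
  rw [← Nat.card_fun]
  refine Nat.card_congr
    { toFun := fun w x => ⟨w.1.left x, w.2.2 x⟩
      invFun := fun f => ⟨⟨fun x => f x, 1⟩, rfl, fun x => (f x).2⟩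
      left_inv := ?_
      right_inv := ?_ }
  · rintro ⟨w, hw1, hw2⟩
    apply Subtype.ext
    refine RegularWreathProduct.ext rfl ?_
    exact hw1.symm
  · intro f
    rfl

theorem card_inf_mul_relIndex (H K : Subgroup G) :
    Nat.card (H ⊓ K : Subgroup G) * H.relIndex K = Nat.card K := by
  rw [← Subgroup.relIndex_bot_left, ← Subgroup.relIndex_bot_left (H := K),
    ← Subgroup.inf_relIndex_right H K, Subgroup.relIndex_mul_relIndex _ _ _ bot_le inf_le_right]

end W5

theorem w5 : T_W5 := by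
  intro G X _ _ _ _ Q _ q L D h3
  refine ⟨⟨?_, ?_, ?_⟩, ?_, ?_, ?_, ?_, ?_⟩
  · intro w hw
    exact hw.2
  · intro u hu g hg
    refine ⟨wr_conj_right u g hg.1, fun x => ?_⟩
    rw [wr_conj_left u g hg.1]
    exact L.mul_mem (L.mul_mem (hu x) (hg.2 _)) (L.inv_mem (hu x))
  · intro u hu
    exact ⟨⟨u.left, 1⟩, ⟨rfl, hu⟩, rfl⟩
  · set P : Subgroup (G ≀ᵣ X) := base X D ⊓ (sQ X q).ker with hP
    have hPr : ∀ p ∈ P, p.right = 1 := fun p hp => hp.1.1
    have hfwd : ∀ w ∈ Subgroup.normalizer (P : Set (G ≀ᵣ X)), ∀ x, ∀ d ∈ D,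
        w.left x * d * (w.left x)⁻¹ ∈ D := by
      intro w hw x d hd
      obtain ⟨p, hp, hpx⟩ := exists_elt (G := G) h3 q D (w.right⁻¹ * x) d hd
      have h1 := (Subgroup.mem_normalizer_iff.1 hw p).1 hp
      have h2 := h1.1.2 x
      rw [wr_conj_left w p (hPr p hp), hpx] at h2
      exact h2
    have hbwd : ∀ w ∈ full X (Subgroup.normalizer (D : Set G)), ∀ p ∈ P, w * p * w⁻¹ ∈ P := by
      intro w hw p hp
      refine ⟨⟨wr_conj_right w p (hPr p hp), fun x => ?_⟩, ?_⟩
      · rw [wr_conj_left w p (hPr p hp)]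
        exact (Subgroup.mem_normalizer_iff.1 (hw x) _).1 (hp.1.2 _)
      · exact Subgroup.Normal.conj_mem inferInstance p hp.2 w
    ext w
    constructor
    · intro hw x
      rw [Subgroup.mem_normalizer_iff]
      intro h
      constructor
      · intro hh
        exact hfwd w hw x h hh
      · intro hh
        have h1 := hfwd w⁻¹ (Subgroup.inv_mem _ hw) (w.right⁻¹ * x) _ hh
        simp only [RegularWreathProduct.inv_left, Pi.inv_apply, mul_inv_cancel_left,
          inv_inv] at h1
        have h2 : (w.left x)⁻¹ * (w.left x * h * (w.left x)⁻¹) * w.left x = h := by group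
        rw [h2] at h1
        exact h1
    · intro hw
      rw [Subgroup.mem_normalizer_iff]
      intro p
      constructor
      · intro hp
        exact hbwd w hw p hp
      · intro hp
        have h1 := hbwd w⁻¹ (Subgroup.inv_mem _ hw) _ hp
        have h2 : w⁻¹ * (w * p * w⁻¹) * w⁻¹⁻¹ = p := by group
        rw [h2] at h1
        exact h1
  · intro w hw
    constructor
    · intro h
      rw [Subgroup.mem_centralizer_iff] at h ⊢
      intro p hp
      refine RegularWreathProduct.ext ?_ (by rw [RegularWreathProduct.mul_right,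
        RegularWreathProduct.mul_right, hw, hp.1])
      funext x
      obtain ⟨p', hp', hpx'⟩ := exists_elt (G := G) h3 q D x (p.left x) (hp.2 x)
      have h1 := congrArg (fun v => RegularWreathProduct.left v x) (h p' hp')
      simp only [RegularWreathProduct.mul_left, Pi.mul_apply, hw, hp'.1.1, inv_one, one_mul,
        hpx'] at h1
      simp only [RegularWreathProduct.mul_left, Pi.mul_apply, hw, hp.1, inv_one, one_mul]
      exact h1
    · intro h
      rw [Subgroup.mem_centralizer_iff] at h ⊢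
      intro p hp
      exact h p hp.1
  · have h1 := card_inf_mul_relIndex (base X D) (base X L)
    rw [base_inf_base, card_base, card_base] at h1
    have h2 := card_inf_mul_relIndex D L
    rw [← h2, mul_pow] at h1
    have h3 : 0 < Nat.card (D ⊓ L : Subgroup G) ^ Nat.card X := Nat.pow_pos Nat.card_pos
    exact Nat.eq_of_mul_eq_mul_left h3 h1
  · intro L'
    constructor
    · ext w
      constructor
      · rintro ⟨⟨h1, h2⟩, h3⟩
        exact ⟨h1, fun x => ⟨h2 x, h3 x⟩⟩
      · rintro ⟨h1, h2⟩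
        exact ⟨⟨h1, fun x => (h2 x).1⟩, fun x => (h2 x).2⟩
    · ext w
      constructor
      · rintro ⟨h2, h3⟩
        exact fun x => ⟨h2 x, h3 x⟩
      · intro h2
        exact ⟨fun x => (h2 x).1, fun x => (h2 x).2⟩
  · ext w
    exact ⟨fun _ => Subgroup.mem_top _, fun _ x => Subgroup.mem_top _⟩

end AMc
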