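import Pool.Agent.H3.AM.Targets2

/-!
# W6: the kernel of `G ≀ X → G^ab` is perfect (helper97)
-/

open scoped Classical commutatorElement

namespace AMc

section W6

variable {G X : Type} [Group G] [Group X]

/-- the coordinate embedding `G → G ≀ X` at `x` -/
noncomputable def dl (x : X) : G →* G ≀ᵣ X where
  toFun g := ⟨Pi.mulSingle x g, 1⟩
  map_one' := by
    refine RegularWreathProduct.ext ?_ rfl
    simp
  map_mul' a b := by
    refine RegularWreathProduct.ext ?_ (by simp)
    funext y
    simp [Pi.mulSingle_mul]

theorem dl_left (x : X) (g : G) : (dl x g).left = Pi.mulSingle x g := rfl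
theorem dl_right (x : X) (g : G) : (dl x g : G ≀ᵣ X).right = 1 := rfl

theorem inl_conj (x : X) (g : G) :
    (RegularWreathProduct.inl x : G ≀ᵣ X) * dl 1 g * (RegularWreathProduct.inl x)⁻¹ = dl x g := by
  refine RegularWreathProduct.ext ?_ (by simp [dl_right])
  funext y
  by_cases hy : y = x
  · subst hy
    simp [dl_left]
  · have h1 : x⁻¹ * y ≠ 1 := by
      intro h
      exact hy (by rw [inv_mul_eq_one] at h; exact h.symm)
    simp [dl_left, Pi.mulSingle_apply, hy, h1]

theorem dl_comm {x y : X} (h : x ≠ y) (g g' : G) :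
    (dl x g : G ≀ᵣ X) * dl y g' = dl y g' * dl x g := by
  refine RegularWreathProduct.ext ?_ (by simp [dl_right])
  funext z
  by_cases h1 : z = x
  · subst h1
    simp [dl_left, dl_right, Pi.mulSingle_apply, h]
  · by_cases h2 : z = y
    · subst h2
      simp [dl_left, dl_right, Pi.mulSingle_apply, h1]
    · simp [dl_left, dl_right, Pi.mulSingle_apply, h1, h2]

variable [Fintype G] [Fintype X]

theorem w6_main (hX : commutator X = ⊤) (h3 : 3 ≤ Nat.card X) :
    (sQ X (Abelianization.of : G →* Abelianization G)).ker ≤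
      ⁅(sQ X (Abelianization.of : G →* Abelianization G)).ker,
        (sQ X (Abelianization.of : G →* Abelianization G)).ker⁆ := by
  set s := sQ X (Abelianization.of : G →* Abelianization G) with hs
  set C : Subgroup (G ≀ᵣ X) := ⁅s.ker, s.ker⁆ with hC
  have : C.Normal := Subgroup.commutator_normal _ _
  have hCH : C ≤ s.ker := Subgroup.commutator_le_left _ _
  have ha0 : ∀ x : X, (RegularWreathProduct.inl x : G ≀ᵣ X) ∈ s.ker := by
    intro x
    rw [MonoidHom.mem_ker]
    simp [hs, sQ]
  have ha : ∀ x : X, (RegularWreathProduct.inl x : G ≀ᵣ X) ∈ C := by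
    intro x
    have h1 : (commutator X).map (RegularWreathProduct.inl : X →* G ≀ᵣ X) ≤ C := by
      rw [commutator_def, Subgroup.map_commutator]
      apply Subgroup.commutator_mono
      · rintro _ ⟨y, _, rfl⟩
        exact ha0 y
      · rintro _ ⟨y, _, rfl⟩
        exact ha0 y
    apply h1
    exact ⟨x, by rw [hX]; exact Subgroup.mem_top x, rfl⟩
  have hb : ∀ (x : X) (g : G), (dl 1 g : G ≀ᵣ X) * (dl x g)⁻¹ ∈ C := by
    intro x g
    have h1 : (dl 1 g : G ≀ᵣ X) * (dl x g)⁻¹ =
        (dl 1 g * RegularWreathProduct.inl x * (dl 1 g)⁻¹) * (RegularWreathProduct.inl x)⁻¹ := by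
      rw [← inl_conj x g]
      group
    rw [h1]
    exact C.mul_mem (Subgroup.Normal.conj_mem inferInstance _ (ha x) _) (C.inv_mem (ha x))
  obtain ⟨x, y, hx, hy, hxy⟩ : ∃ x y : X, x ≠ 1 ∧ y ≠ 1 ∧ x ≠ y := by
    have h4 : 2 < Fintype.card X := by rw [Nat.card_eq_fintype_card] at h3; omega
    obtain ⟨a, b, c, hab, hac, hbc⟩ := Fintype.two_lt_card_iff.1 h4
    by_cases h1 : a = 1
    · exact ⟨b, c, by rw [← h1]; exact hab.symm, by rw [← h1]; exact hac.symm, hbc⟩
    · by_cases h2 : b = 1
      · exact ⟨a, c, h1, by rw [← h2]; exact hbc.symm, hac⟩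
      · exact ⟨a, b, h1, h2, hab⟩
  have hc : ∀ g g' : G, dl 1 (⁅g, g'⁆) ∈ C := by
    intro g g'
    have h1 : (dl 1 (⁅g, g'⁆) : G ≀ᵣ X) = ⁅dl 1 g * (dl x g)⁻¹, dl 1 g' * (dl y g')⁻¹⁆ := by
      refine RegularWreathProduct.ext ?_ ?_
      · funext z
        simp only [commutatorElement_def, dl_left, RegularWreathProduct.mul_left,
          RegularWreathProduct.inv_left, RegularWreathProduct.mul_right,
          RegularWreathProduct.inv_right, dl_right, Pi.mul_apply, Pi.inv_apply, mul_one, one_mul,
          inv_one]
        by_cases h1 : z = 1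
        · subst h1
          simp [Pi.mulSingle_apply, hx.symm, hy.symm]
        · by_cases h2 : z = x
          · subst h2
            simp [Pi.mulSingle_apply, h1, hxy]
          · by_cases h3 : z = y
            · subst h3
              simp [Pi.mulSingle_apply, h1, h2]
            · simp [Pi.mulSingle_apply, h1, h2, h3]
      · simp [commutatorElement_def, dl_right]
    rw [h1]
    exact Subgroup.commutator_mem_commutator (hCH (hb x g)) (hCH (hb y g'))
  have hc' : ∀ g ∈ commutator G, (dl 1 g : G ≀ᵣ X) ∈ C := by
    have h1 : (commutator G) ≤ C.comap (dl 1 : G →* G ≀ᵣ X) := by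
      rw [commutator_def, Subgroup.commutator_le]
      intro g _ g' _
      exact hc g g'
    intro g hg
    exact h1 hg
  have hd : ∀ (S : Finset X) (f : X → G), (∀ x, x ∉ S → f x = 1) →
      ∃ g : G, Abelianization.of g = ∏ x, Abelianization.of (f x) ∧
        (⟨f, 1⟩ : G ≀ᵣ X) * (dl 1 g)⁻¹ ∈ C := by
    intro S
    induction S using Finset.induction_on with
    | empty =>
      intro f hf
      refine ⟨1, ?_, ?_⟩
      · simp [hf]
      · have h1 : (⟨f, 1⟩ : G ≀ᵣ X) = 1 := by
          refine RegularWreathProduct.ext ?_ rfl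
          funext x
          simp [hf x]
        rw [h1]
        simp [C.one_mem]
    | insert a S haS ih =>
      intro f hf
      obtain ⟨g, hg1, hg2⟩ := ih (Function.update f a 1) (by
        intro x hx
        by_cases h : x = a
        · subst h; simp
        · rw [Function.update_of_ne h]
          exact hf x (by simp [h, hx]))
      refine ⟨f a * g, ?_, ?_⟩
      · rw [map_mul, hg1]
        rw [← Finset.mul_prod_erase Finset.univ _ (Finset.mem_univ a),
          ← Finset.mul_prod_erase Finset.univ (fun x => Abelianization.of (f x))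
            (Finset.mem_univ a)]
        rw [Function.update_self, map_one, one_mul]
        congr 1
        refine Finset.prod_congr rfl fun x hx => ?_
        rw [Function.update_of_ne (Finset.ne_of_mem_erase hx)]
      · have h1 : (⟨f, 1⟩ : G ≀ᵣ X) = dl a (f a) * ⟨Function.update f a 1, 1⟩ := by
          refine RegularWreathProduct.ext ?_ (by simp [dl_right])
          funext x
          by_cases h : x = a
          · subst h
            simp [dl_left, dl_right]
          · simp [dl_left, dl_right, Pi.mulSingle_apply, h]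
        have h2 : (⟨f, 1⟩ : G ≀ᵣ X) * (dl 1 (f a * g))⁻¹ =
            dl a (f a) * (⟨Function.update f a 1, 1⟩ * (dl 1 g)⁻¹) * (dl a (f a))⁻¹ *
              (dl 1 (f a) * (dl a (f a))⁻¹)⁻¹ := by
          rw [h1, map_mul]
          group
        rw [h2]
        exact C.mul_mem (Subgroup.Normal.conj_mem inferInstance _ hg2 _) (C.inv_mem (hb a (f a)))
  intro w hw
  obtain ⟨g, hg1, hg2⟩ := hd Finset.univ w.left (by simp)
  have h1 : Abelianization.of g = 1 := by
    rw [hg1]
    rw [MonoidHom.mem_ker] at hw
    exact hw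
  have h2 : g ∈ commutator G := by
    rw [← Abelianization.ker_of, MonoidHom.mem_ker]
    exact h1
  have h3 : w = (⟨w.left, 1⟩ : G ≀ᵣ X) * (dl 1 g)⁻¹ * dl 1 g * RegularWreathProduct.inl w.right := by
    rw [inv_mul_cancel_right]
    refine RegularWreathProduct.ext ?_ (by simp)
    funext x
    simp
  rw [h3]
  exact C.mul_mem (C.mul_mem hg2 (hc' g h2)) (ha _)

end W6

theorem w6 : T_W6 := by
  intro G X _ _ _ _ hX h3
  refine ⟨?_, ?_, ?_⟩
  · set s := sQ X (Abelianization.of : G →* Abelianization G) with hs
    have h := w6_main (G := G) hX h3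
    have h1 : (commutator s.ker).map s.ker.subtype = s.ker := by
      rw [commutator_def, Subgroup.map_commutator]
      have h2 : (⊤ : Subgroup s.ker).map s.ker.subtype = s.ker := by
        rw [← MonoidHom.range_eq_map, Subgroup.range_subtype]
      rw [h2]
      exact le_antisymm (Subgroup.commutator_le_left _ _) h
    rw [eq_top_iff]
    intro w _
    have h2 : (w : G ≀ᵣ X) ∈ (commutator s.ker).map s.ker.subtype := by
      rw [h1]; exact w.2
    obtain ⟨v, hv, hvw⟩ := h2
    have : v = w := Subtype.ext hvw
    rw [← this]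
    exact hv
  · refine Nat.card_le_card_of_injective (fun x : X => (⟨RegularWreathProduct.inl x, ?_⟩ :
      (sQ X (Abelianization.of : G →* Abelianization G)).ker)) ?_
    · rw [MonoidHom.mem_ker]
      simp [sQ]
    · intro x y hxy
      have h1 : (RegularWreathProduct.inl x : G ≀ᵣ X) = RegularWreathProduct.inl y :=
        congrArg Subtype.val hxy
      have := congrArg RegularWreathProduct.right h1
      simpa using this
  · rw [← RegularWreathProduct.card]
    exact Subgroup.card_le_card_group _

end AMc
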