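import Pool.Agent.H3.AM.Targets2

/-!
# Y1, Y2: existence of large perfect groups and of suitable cyclic groups (helper97)
-/

open scoped commutatorElement

namespace AMc

theorem perfect_A5 : commutator (alternatingGroup (Fin 5)) = ⊤ := by
  have hs : IsSimpleGroup (alternatingGroup (Fin 5)) := alternatingGroup.isSimpleGroup (by simp)
  rcases hs.eq_bot_or_eq_top_of_normal (commutator (alternatingGroup (Fin 5))) inferInstance with h | h
  · exfalso
    have h1 : ∀ a b : alternatingGroup (Fin 5), a * b = b * a := by
      intro a b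
      have h2 : ⁅a, b⁆ ∈ commutator (alternatingGroup (Fin 5)) :=
        Subgroup.commutator_mem_commutator (Subgroup.mem_top a) (Subgroup.mem_top b)
      rw [h, Subgroup.mem_bot, commutatorElement_eq_one_iff_mul_comm] at h2
      exact h2
    have h2 := h1 ⟨c[0, 1, 2], Equiv.Perm.mem_alternatingGroup.2 (by decide)⟩
      ⟨c[0, 1, 3], Equiv.Perm.mem_alternatingGroup.2 (by decide)⟩
    exact absurd h2 (by decide)
  · exact h

open scoped Classical

theorem y1 : T_Y1 := by
  intro n
  refine ⟨Fin n → alternatingGroup (Fin 5), inferInstance, inferInstance, ?_, ?_⟩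
  · rw [eq_top_iff]
    intro f _
    have key : ∀ (i : Fin n) (a : alternatingGroup (Fin 5)),
        (Pi.mulSingle i a : Fin n → alternatingGroup (Fin 5)) ∈
          commutator (Fin n → alternatingGroup (Fin 5)) := by
      intro i a
      have h1 : (commutator (alternatingGroup (Fin 5))).map
          (MonoidHom.mulSingle (fun _ : Fin n => alternatingGroup (Fin 5)) i) ≤
          commutator (Fin n → alternatingGroup (Fin 5)) := by
        rw [commutator_def, commutator_def, Subgroup.map_commutator]
        exact Subgroup.commutator_mono le_top le_top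
      apply h1
      exact ⟨a, by rw [perfect_A5]; exact Subgroup.mem_top a, rfl⟩
    exact Subgroup.pi_mem_of_mulSingle_mem f (fun i => key i (f i))
  · have h1 : Nat.card (alternatingGroup (Fin 5)) = 60 := by
      have := nat_card_alternatingGroup (α := Fin 5)
      rw [this]
      simp
      decide
    rw [Nat.card_fun, h1, Nat.card_fin]
    exact (Nat.lt_pow_self (by norm_num)).le

theorem y2 : T_Y2 := by
  intro l hl
  obtain ⟨r, hr, hrl⟩ : ∃ r : ℕ, r.Prime ∧ r ≠ l := by
    by_cases h : l = 2
    · exact ⟨3, Nat.prime_three, by omega⟩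
    · exact ⟨2, Nat.prime_two, fun h' => h h'.symm⟩
  have : NeZero r := ⟨hr.ne_zero⟩
  have hr1 : Fact (1 < r) := ⟨hr.one_lt⟩
  obtain ⟨φ, hφ⟩ := CommGroup.exists_apply_ne_one_of_hasEnoughRootsOfUnity
    (Multiplicative (ZMod r)) ℂ (a := Multiplicative.ofAdd (1 : ZMod r)) (by
      intro h
      have : (1 : ZMod r) = 0 := h
      exact one_ne_zero this)
  refine ⟨Multiplicative (ZMod r), inferInstance, inferInstance, φ,
    Multiplicative.ofAdd (1 : ZMod r), ?_, hφ⟩
  have h1 : Nat.card (Multiplicative (ZMod r)) = r := by
    rw [Nat.card_congr Multiplicative.toAdd, Nat.card_zmod]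
  rw [h1, Nat.prime_dvd_prime_iff_eq hl hr]
  exact fun h => hrl h.symm

end AMc
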