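import Pool.Agent.H3.AM.Targets2

/-!
# Z1: the final inequality (helper97)
-/

open scoped Classical
open Filter Topology

namespace AMc

theorem z1 : T_Z1 := by
  intro g c k u v hg huv
  by_cases hv : v = 0
  · refine ⟨1, one_pos, fun n₀ => ⟨max n₀ (max (c + 1) 3), le_max_left _ _, ?_, ?_, ?_⟩⟩
    · have := le_max_right n₀ (max (c + 1) 3)
      have := le_max_left (c + 1) 3
      omega
    · have := le_max_right n₀ (max (c + 1) 3)
      have := le_max_right (c + 1) 3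
      omega
    · intro m hm N A B _ hA hB hB'
      have hc : c < m := by
        have := le_max_right n₀ (max (c + 1) 3)
        have := le_max_left (c + 1) 3
        omega
      rw [if_pos ⟨hv, hc⟩, mul_zero] at hB'
      have hB0 : B = 0 := by omega
      rw [hB0, Nat.cast_zero, mul_zero] at hB
      have hA0 : A = 0 := by
        have : (A : ℝ) = 0 := le_antisymm hB (Nat.cast_nonneg _)
        exact_mod_cast this
      rw [hA0, mul_zero] at hA
      have : 0 < u ^ m := Nat.pow_pos (by omega)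
      omega
  · have hv1 : 1 ≤ v := Nat.one_le_iff_ne_zero.2 hv
    have hgR : (0 : ℝ) < g := by exact_mod_cast hg
    have hvR : (0 : ℝ) < v := by exact_mod_cast hv1
    have huvR : (v : ℝ) < u := by exact_mod_cast huv
    obtain ⟨ε, hε0, hε1, hε⟩ : ∃ ε : ℝ, 0 < ε ∧ ε ≤ 1 ∧ (g : ℝ) ^ ε * v < u := by
      have h1 : Tendsto (fun ε : ℝ => (g : ℝ) ^ ε * v) (𝓝[>] 0) (𝓝 ((g : ℝ) ^ (0 : ℝ) * v)) := by
        have hcont : Continuous (fun ε : ℝ => (g : ℝ) ^ ε * v) :=
          (Real.continuous_const_rpow (ne_of_gt hgR)).mul continuous_const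
        exact (hcont.tendsto 0).mono_left nhdsWithin_le_nhds
      rw [Real.rpow_zero, one_mul] at h1
      have h2 : ∀ᶠ ε : ℝ in 𝓝[>] 0, (g : ℝ) ^ ε * v < u := h1.eventually (gt_mem_nhds huvR)
      have h3 : ∀ᶠ ε : ℝ in 𝓝[>] 0, 0 < ε := eventually_mem_nhdsWithin
      have h4 : ∀ᶠ ε : ℝ in 𝓝[>] 0, ε ≤ 1 := by
        have : ∀ᶠ ε : ℝ in 𝓝 0, ε < 1 := gt_mem_nhds one_pos
        have h5 : ∀ᶠ ε : ℝ in 𝓝[>] 0, ε < 1 := this.filter_mono nhdsWithin_le_nhds
        exact h5.mono fun x hx => le_of_lt hx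
      obtain ⟨ε, h⟩ := (h2.and (h3.and h4)).exists
      exact ⟨ε, h.2.1, h.2.2, h.1⟩
    have hge : (0 : ℝ) < (g : ℝ) ^ ε := Real.rpow_pos_of_pos hgR _
    set r : ℝ := u / ((g : ℝ) ^ ε * v) with hr
    have hr1 : 1 < r := by
      rw [hr, one_lt_div (mul_pos hge hvR)]
      exact hε
    have hlim := (tendsto_pow_const_div_const_pow_of_one_lt (c + 1) hr1).const_mul
      ((c : ℝ) ^ 2 * (k : ℝ) ^ c)
    rw [mul_zero] at hlim
    obtain ⟨M, hM⟩ := eventually_atTop.1 (hlim.eventually (gt_mem_nhds one_pos))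
    refine ⟨ε, hε0, fun n₀ => ⟨max (max n₀ M) (max (c + 1) 3), ?_, ?_, ?_, ?_⟩⟩
    · exact le_trans (le_max_left _ _) (le_max_left _ _)
    · have := le_max_right (max n₀ M) (max (c + 1) 3)
      have := le_max_left (c + 1) 3
      omega
    · have := le_max_right (max n₀ M) (max (c + 1) 3)
      have := le_max_right (c + 1) 3
      omega
    · intro m hm N A B hN hA hB hB'
      have hmM : M ≤ m := le_trans (le_trans (le_max_right n₀ M) (le_max_left _ _)) hm
      have hm3 : 3 ≤ m := by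
        have := le_max_right (max n₀ M) (max (c + 1) 3)
        have := le_max_right (c + 1) 3
        omega
      have hmR : (1 : ℝ) ≤ m := by exact_mod_cast (by omega : 1 ≤ m)
      have hlt := hM m hmM
      rw [if_neg (by rintro ⟨h, _⟩; exact hv h), max_eq_left hv1] at hB'
      have hN' : (N : ℝ) ≤ (g : ℝ) ^ m * m := by exact_mod_cast hN
      have hN2 : (N : ℝ) ^ ε ≤ ((g : ℝ) ^ ε) ^ m * m := by
        calc (N : ℝ) ^ ε ≤ ((g : ℝ) ^ m * m) ^ ε :=
              Real.rpow_le_rpow (Nat.cast_nonneg _) hN' hε0.le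
          _ = ((g : ℝ) ^ m) ^ ε * (m : ℝ) ^ ε := Real.mul_rpow (by positivity) (by positivity)
          _ = ((g : ℝ) ^ ε) ^ m * (m : ℝ) ^ ε := by
              rw [← Real.rpow_natCast, ← Real.rpow_natCast, ← Real.rpow_mul hgR.le,
                ← Real.rpow_mul hgR.le, mul_comm ε (m : ℝ)]
          _ ≤ ((g : ℝ) ^ ε) ^ m * (m : ℝ) := by
              refine mul_le_mul_of_nonneg_left ?_ (by positivity)
              calc (m : ℝ) ^ ε ≤ (m : ℝ) ^ (1 : ℝ) := Real.rpow_le_rpow_of_exponent_le hmR hε1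
                _ = m := Real.rpow_one _
      have hA' : (u : ℝ) ^ m ≤ c * A := by exact_mod_cast hA
      have hB2 : (B : ℝ) ≤ c * ((m : ℝ) ^ c * (k : ℝ) ^ c * (v : ℝ) ^ m) := by exact_mod_cast hB'
      have h1 : (u : ℝ) ^ m ≤ c * (((g : ℝ) ^ ε) ^ m * m *
          (c * ((m : ℝ) ^ c * (k : ℝ) ^ c * (v : ℝ) ^ m))) := by
        refine le_trans hA' (mul_le_mul_of_nonneg_left ?_ (Nat.cast_nonneg _))
        refine le_trans hB ?_
        exact mul_le_mul hN2 hB2 (Nat.cast_nonneg _) (by positivity)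
      have h2 : (u : ℝ) ^ m = r ^ m * (((g : ℝ) ^ ε) ^ m * (v : ℝ) ^ m) := by
        rw [← mul_pow, ← mul_pow, hr, div_mul_cancel₀ _ (ne_of_gt (mul_pos hge hvR))]
      have hpos : (0 : ℝ) < ((g : ℝ) ^ ε) ^ m * (v : ℝ) ^ m := by positivity
      have hrm : (0 : ℝ) < r ^ m := by positivity
      have h3 : r ^ m ≤ (c : ℝ) ^ 2 * (k : ℝ) ^ c * (m : ℝ) ^ (c + 1) := by
        have h4 : r ^ m * (((g : ℝ) ^ ε) ^ m * (v : ℝ) ^ m) ≤
            ((c : ℝ) ^ 2 * (k : ℝ) ^ c * (m : ℝ) ^ (c + 1)) *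
              (((g : ℝ) ^ ε) ^ m * (v : ℝ) ^ m) := by
          rw [← h2]
          refine le_trans h1 (le_of_eq ?_)
          ring
        exact le_of_mul_le_mul_right h4 hpos
      have h5 : (c : ℝ) ^ 2 * (k : ℝ) ^ c * ((m : ℝ) ^ (c + 1) / r ^ m) =
          ((c : ℝ) ^ 2 * (k : ℝ) ^ c * (m : ℝ) ^ (c + 1)) / r ^ m := by ring
      rw [h5, div_lt_one hrm] at hlt
      exact absurd h3 (not_le.2 hlt)

end AMc
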